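import Mathlib
import Pool.Agent.helper85.PG.Spec
import Pool.Agent.helper85.PG.Basic

/-!
# Small doubling and the Paley graph conjecture: module T1

Proof of `T1_stmt`: the number of ratios, proper systems, the system of pairs.
-/

set_option autoImplicit false

namespace Pool.Agent.helper85.PG

/-- the number of ratios -/
theorem T1_ratios {p : ℕ} [Fact p.Prime] (S : Finset (ZMod p)) (_h0 : (0 : ZMod p) ∈ S) :
    ((Finset.univ : Finset (ZMod p)).filter fun ρ => ρ ≠ 0 ∧ 2 ≤ rr S ρ).card ≤ S.card ^ 2 := by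
  classical
  have hex : ∀ ρ : ZMod p, 2 ≤ rr S ρ → ∃ y : ZMod p, y ≠ 0 ∧ y ∈ S ∧ ρ * y ∈ S := by
    intro ρ hρ
    by_contra hcon
    have hsub : (S.filter fun y => ρ * y ∈ S) ⊆ {0} := by
      intro y hy
      rw [Finset.mem_filter] at hy
      rw [Finset.mem_singleton]
      by_contra hy0
      exact hcon ⟨y, hy0, hy.1, hy.2⟩
    have := Finset.card_le_card hsub
    rw [Finset.card_singleton] at this
    unfold rr at hρ
    omega
  choose! f hf using hex
  have hcard : ((Finset.univ : Finset (ZMod p)).filter fun ρ => ρ ≠ 0 ∧ 2 ≤ rr S ρ).card ≤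
      (S ×ˢ S).card := by
    refine Finset.card_le_card_of_injOn (fun ρ => (f ρ, ρ * f ρ)) ?_ ?_
    · intro ρ hρ
      have hρ' := (Finset.mem_filter.1 (Finset.mem_coe.1 hρ)).2
      obtain ⟨_, h2, h3⟩ := hf ρ hρ'.2
      exact Finset.mem_coe.2 (Finset.mem_product.2 ⟨h2, h3⟩)
    · intro ρ hρ σ hσ hEq
      have hρ' := (Finset.mem_filter.1 (Finset.mem_coe.1 hρ)).2
      have hσ' := (Finset.mem_filter.1 (Finset.mem_coe.1 hσ)).2
      obtain ⟨h1, h2⟩ := Prod.mk.inj hEq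
      have hne := (hf ρ hρ'.2).1
      rw [← h1] at h2
      exact mul_right_cancel₀ hne h2
  rw [Finset.card_product] at hcard
  rw [sq]
  exact hcard

/-- proper systems -/
theorem T1_proper {p : ℕ} [Fact p.Prime] {E : Type} [NormedAddCommGroup E]
    (G : AddSubgroup (E × ZMod p)) (l : ℝ)
    (hpr : ∀ x : E, (x, (0 : ZMod p)) ∈ G → ‖x‖ ≤ 2 * l → x = 0) :
    (PP G l).card = (ball G l).ncard := by
  have hinj : Set.InjOn Prod.snd (ball G l) := by
    rintro ⟨x, y⟩ hz ⟨x', y'⟩ hz' hEq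
    have hEq' : y = y' := hEq
    subst hEq'
    have hsub : (x - x', (0 : ZMod p)) ∈ G := by
      have h := G.sub_mem hz.1 hz'.1
      rw [Prod.mk_sub_mk, sub_self] at h
      exact h
    have hn : ‖x - x'‖ ≤ 2 * l := by
      have h1 : ‖x‖ ≤ l := hz.2
      have h2 : ‖x'‖ ≤ l := hz'.2
      have h3 := norm_sub_le x x'
      linarith
    have h := hpr _ hsub hn
    rw [sub_eq_zero] at h
    rw [h]
  have him : ((PP G l : Finset (ZMod p)) : Set (ZMod p)) = Prod.snd '' ball G l := by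
    ext y
    rw [Finset.mem_coe, mem_PP]
    constructor
    · rintro ⟨x, hx, hxl⟩
      exact ⟨(x, y), ⟨hx, hxl⟩, rfl⟩
    · rintro ⟨⟨x, y'⟩, hz, rfl⟩
      exact ⟨x, hz.1, hz.2⟩
  rw [← Set.ncard_coe_finset, him, hinj.ncard_image]

/-- the system of pairs -/
def pairSys {p : ℕ} [Fact p.Prime] {E : Type} [NormedAddCommGroup E]
    (G : AddSubgroup (E × ZMod p)) (ρ : ZMod p) : AddSubgroup ((E × E) × ZMod p) where
  carrier := {z | (z.1.1, z.2) ∈ G ∧ (z.1.2, ρ * z.2) ∈ G}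
  zero_mem' := by
    constructor
    · exact G.zero_mem
    · have h : ((0 : (E × E) × ZMod p).1.2, ρ * (0 : (E × E) × ZMod p).2) = (0 : E × ZMod p) := by
        rw [Prod.snd_zero, mul_zero]
        rfl
      rw [h]
      exact G.zero_mem
  add_mem' := by
    rintro ⟨⟨x, x'⟩, y⟩ ⟨⟨u, u'⟩, v⟩ ⟨h1, h2⟩ ⟨h3, h4⟩
    constructor
    · exact G.add_mem h1 h3
    · have h := G.add_mem h2 h4
      rw [Prod.mk_add_mk, ← mul_add] at h
      exact h
  neg_mem' := by
    rintro ⟨⟨x, x'⟩, y⟩ ⟨h1, h2⟩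
    constructor
    · exact G.neg_mem h1
    · have h := G.neg_mem h2
      rw [Prod.neg_mk, ← mul_neg] at h
      exact h

theorem mem_pairSys {p : ℕ} [Fact p.Prime] {E : Type} [NormedAddCommGroup E]
    (G : AddSubgroup (E × ZMod p)) (ρ : ZMod p) (x x' : E) (y : ZMod p) :
    ((x, x'), y) ∈ pairSys G ρ ↔ (x, y) ∈ G ∧ (x', ρ * y) ∈ G := Iff.rfl

theorem T1 : T1_stmt := by
  refine ⟨?_, ?_, ?_⟩
  · intro p _ S h0
    exact_mod_cast T1_ratios S h0
  · intro p _ E _ G l _ hpr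
    exact T1_proper G l hpr
  · intro p _ E _ G ρ hG hρ
    refine ⟨pairSys G ρ, ?_, ?_, ?_⟩
    · intro R
      have hfin : ((ball G R) ×ˢ (ball G R)).Finite := (hG R).prod (hG R)
      refine Set.Finite.of_finite_image
        (f := fun z : (E × E) × ZMod p => ((z.1.1, z.2), (z.1.2, ρ * z.2))) (hfin.subset ?_) ?_
      · rintro _ ⟨⟨⟨x, x'⟩, y⟩, hz, rfl⟩
        have hn : max ‖x‖ ‖x'‖ ≤ R := hz.2
        exact ⟨⟨hz.1.1, (le_max_left _ _).trans hn⟩, ⟨hz.1.2, (le_max_right _ _).trans hn⟩⟩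
      · rintro ⟨⟨x, x'⟩, y⟩ _ ⟨⟨u, u'⟩, v⟩ _ hEq
        have h1 := (Prod.mk.inj hEq).1
        have h2 := (Prod.mk.inj hEq).2
        have h3 : x = u := (Prod.mk.inj h1).1
        have h4 : y = v := (Prod.mk.inj h1).2
        have h5 : x' = u' := (Prod.mk.inj h2).1
        rw [h3, h4, h5]
    · intro l
      unfold rr
      congr 1
      ext y
      rw [Finset.mem_filter, mem_PP, mem_PP, mem_PP]
      constructor
      · rintro ⟨⟨x, x'⟩, hx, hn⟩
        have hn' : max ‖x‖ ‖x'‖ ≤ l := hn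
        exact ⟨⟨x, hx.1, (le_max_left _ _).trans hn'⟩, ⟨x', hx.2, (le_max_right _ _).trans hn'⟩⟩
      · rintro ⟨⟨x, hx, hxl⟩, ⟨x', hx', hxl'⟩⟩
        exact ⟨(x, x'), ⟨hx, hx'⟩, max_le hxl hxl'⟩
    · rintro l hpr ⟨x, x'⟩ hx hn
      have hn' : max ‖x‖ ‖x'‖ ≤ 2 * l := hn
      have h1 : x = 0 := hpr x hx.1 ((le_max_left _ _).trans hn')
      have h2 : x' = 0 := by
        refine hpr x' ?_ ((le_max_right _ _).trans hn')
        have h := hx.2
        change (x', ρ * (0 : ZMod p)) ∈ G at h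
        rw [mul_zero] at h
        exact h
      rw [h1, h2]
      rfl

end Pool.Agent.helper85.PG
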